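import Pool.Agent.Helper17.Trs.Defs

/-!
# Module DataC of the project `trs` (MP_a2f59b_nt): the instances C, E1, E2
-/

namespace Trs

open Complex

namespace H40

theorem alg_ofReal {x : ℝ} (h : IsAlgebraic ℚ x) : IsAlgebraic ℚ (x : ℂ) := by
  have := h.algebraMap (A := ℂ)
  simpa using this

theorem alg_I : IsAlgebraic ℚ (I : ℂ) := by
  refine ⟨Polynomial.X ^ 2 + 1, ?_, ?_⟩
  · intro h
    have := congrArg (fun p => Polynomial.eval 0 p) h
    simp at this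
  · simp

theorem alg_sqrt2 : IsAlgebraic ℚ ((Real.sqrt 2 : ℝ) : ℂ) := by
  refine ⟨Polynomial.X ^ 2 - Polynomial.C 2, ?_, ?_⟩
  · intro h
    have := congrArg (fun p => Polynomial.eval 0 p) h
    simp at this
  · have h : ((Real.sqrt 2 : ℝ) : ℂ) ^ 2 = 2 := by
      rw [← Complex.ofReal_pow, Real.sq_sqrt (by norm_num)]
      norm_num
    simp [h]

theorem alg_neg_one : IsAlgebraic ℚ (-1 : ℂ) := by
  simpa using (isAlgebraic_algebraMap (R := ℚ) (A := ℂ) (-1))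

theorem sqrt2_ne : ((Real.sqrt 2 : ℝ) : ℂ) ≠ 0 := by
  have : Real.sqrt 2 ≠ 0 := by positivity
  exact_mod_cast this

theorem not_some {s : Finset (Fin 9)} (h : ¬ SomeT s) : ∀ i ∈ s, IsAlgebraic ℚ (nine i) := by
  intro i hi
  by_contra hc
  exact h ⟨i, hi, hc⟩

theorem run (hM : S_Main) (hC : S_ShC) (k1 k2 a1 b2 s1 t2 t3 s3 p0 p1 p2 p3 : ℂ)
    (hφ : p0 ≠ 0) (e0 : p0 * a1 + p3 * s1 = 0) (e1 : p1 * b2 + p2 * t2 = 0)
    (e2 : p2 * t3 + p3 * s3 = 0) (f1 : p0 + p2 * k1 = 0) (f2 : p1 + p3 * k2 = 0)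
    (ha1 : IsAlgebraic ℚ a1) (hb2 : IsAlgebraic ℚ b2) (hk1 : IsAlgebraic ℚ k1)
    (hk2 : IsAlgebraic ℚ k2) (hs1 : IsAlgebraic ℚ (exp s1)) (ht2 : IsAlgebraic ℚ (exp t2))
    (ht3 : IsAlgebraic ℚ (exp t3)) (hs3 : IsAlgebraic ℚ (exp s3))
    (nk1 : k1 ≠ 0) (nk2 : k2 ≠ 0) (na1 : a1 ≠ 0) (nb2 : b2 ≠ 0) (ns3 : s3.re ≠ 0)
    (hc : (t3.re = 0 ∧ t2.re ≠ 0) ∨
      ∀ a b : ℤ, (a : ℝ) * t3.re + b * s3.re = 0 → a = 0 ∧ b = 0) : False := by
  refine hM 4 3 ![false, false, true, true]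
      ![![a1, 0, 0, s1], ![0, b2, t2, 0], ![0, 0, t3, s3]]
      ![1, 0, k1, 0] ![0, 1, 0, k2] ![p0, p1, p2, p3] ?_ ?_ ?_ ?_ ?_ ?_ ?_ 60 59 32 26 58
      (by norm_num) (by norm_num) (by norm_num) ?_
      (hC k1 k2 a1 b2 s1 t2 t3 s3 nk1 nk2 na1 nb2 ns3 hc)
  · intro h
    exact hφ (by simpa using congrFun h 0)
  · intro k
    fin_cases k
    · simpa [Fin.sum_univ_four] using e0
    · simpa [Fin.sum_univ_four] using e1
    · simpa [Fin.sum_univ_four] using e2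
  · simpa [Fin.sum_univ_four] using f1
  · simpa [Fin.sum_univ_four] using f2
  · intro k i
    fin_cases k <;> fin_cases i <;>
      simp [isAlgebraic_zero, isAlgebraic_one, ha1, hb2, hs1, ht2, ht3, hs3]
  · intro i
    fin_cases i <;> simp [isAlgebraic_zero, isAlgebraic_one, hk1]
  · intro i
    fin_cases i <;> simp [isAlgebraic_zero, isAlgebraic_one, hk2]
  · simp [ex, Fin.sum_univ_four]

theorem ofReal_rpow_exp {x y : ℝ} (hx : 0 < x) :
    ((x ^ y : ℝ) : ℂ) = exp ((Real.log x * y : ℝ) : ℂ) := by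
  rw [Real.rpow_def_of_pos hx, Complex.ofReal_exp]

theorem logpi_pos : 0 < Real.log Real.pi :=
  Real.log_pos (by linarith [Real.pi_gt_three])

theorem pi_ne : (Real.pi : ℂ) ≠ 0 := by
  exact_mod_cast Real.pi_ne_zero

theorem e_ne : ((Real.exp 1 : ℝ) : ℂ) ≠ 0 := by
  exact_mod_cast (Real.exp_pos 1).ne'

theorem exp_pi_I_alg : IsAlgebraic ℚ (exp (Real.pi * I)) := by
  rw [Complex.exp_pi_mul_I]
  exact alg_neg_one

/-- `e^e` -/
theorem ee {h : IsAlgebraic ℚ (nine 5)} : IsAlgebraic ℚ (exp ((Real.exp 1 : ℝ) : ℂ)) := by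
  have h1 : nine 5 = Real.exp 1 ^ Real.exp 1 := by simp [nine]
  rw [h1] at h
  have h2 := alg_ofReal h
  rw [ofReal_rpow_exp (Real.exp_pos 1), Real.log_exp, one_mul] at h2
  exact h2

theorem pie {h : IsAlgebraic ℚ (nine 2)} :
    IsAlgebraic ℚ ((Real.pi : ℂ) * ((Real.exp 1 : ℝ) : ℂ)) := by
  have h1 : nine 2 = Real.pi * Real.exp 1 := by simp [nine]
  rw [h1] at h
  have h2 := alg_ofReal h
  rw [Complex.ofReal_mul] at h2
  exact h2

theorem epi2 {h : IsAlgebraic ℚ (nine 8)} :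
    IsAlgebraic ℚ (exp ((Real.pi : ℂ) ^ 2)) := by
  have h1 : nine 8 = Real.exp 1 ^ (Real.pi ^ 2) := by simp [nine]
  rw [h1] at h
  have h2 := alg_ofReal h
  rw [ofReal_rpow_exp (Real.exp_pos 1), Real.log_exp, one_mul, Complex.ofReal_pow] at h2
  exact h2

theorem pipi {h : IsAlgebraic ℚ (nine 4)} :
    IsAlgebraic ℚ (exp ((Real.log Real.pi : ℂ) * Real.pi)) := by
  have h1 : nine 4 = Real.pi ^ Real.pi := by simp [nine]
  rw [h1] at h
  have h2 := alg_ofReal h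
  rw [ofReal_rpow_exp Real.pi_pos, Complex.ofReal_mul] at h2
  exact h2

theorem pie' {h : IsAlgebraic ℚ (nine 6)} :
    IsAlgebraic ℚ (exp ((Real.log Real.pi : ℂ) * ((Real.exp 1 : ℝ) : ℂ))) := by
  have h1 : nine 6 = Real.pi ^ Real.exp 1 := by simp [nine]
  rw [h1] at h
  have h2 := alg_ofReal h
  rw [ofReal_rpow_exp Real.pi_pos, Complex.ofReal_mul] at h2
  exact h2

theorem pis {h : IsAlgebraic ℚ (nine 7)} :
    IsAlgebraic ℚ (exp ((Real.log Real.pi : ℂ) * ((Real.sqrt 2 : ℝ) : ℂ))) := by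
  have h1 : nine 7 = Real.pi ^ Real.sqrt 2 := by simp [nine]
  rw [h1] at h
  have h2 := alg_ofReal h
  rw [ofReal_rpow_exp Real.pi_pos, Complex.ofReal_mul] at h2
  exact h2

/-- From Hermite–Lindemann: `e` is transcendental. -/
theorem e_trans (h : S_HL) : ¬ IsAlgebraic ℚ ((Real.exp 1 : ℝ) : ℂ) := by
  have := h 1 isAlgebraic_one one_ne_zero
  simpa using this

/-- From Hermite–Lindemann: `π` is transcendental. -/
theorem pi_trans (h : S_HL) : ¬ IsAlgebraic ℚ (Real.pi : ℂ) := by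
  intro hp
  exact h (Real.pi * I) (hp.mul alg_I) (mul_ne_zero pi_ne I_ne_zero) exp_pi_I_alg

/-- a rational relation with `√2` makes a number algebraic -/
theorem rel_sqrt2 {x : ℝ} (hx : ¬ IsAlgebraic ℚ (x : ℂ)) (a b : ℤ)
    (h : (a : ℝ) * Real.sqrt 2 + b * x = 0) : a = 0 ∧ b = 0 := by
  have hb : b = 0 := by
    by_contra hb
    apply hx
    have hb' : (b : ℝ) ≠ 0 := by exact_mod_cast hb
    have h1 : x = -(a : ℝ) / b * Real.sqrt 2 := by
      field_simp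
      linarith
    have h2 : (x : ℂ) = algebraMap ℚ ℂ (-(a : ℚ) / b) * ((Real.sqrt 2 : ℝ) : ℂ) := by
      rw [h1]
      push_cast
      simp
    rw [h2]
    exact (isAlgebraic_algebraMap _).mul alg_sqrt2
  subst hb
  refine ⟨?_, rfl⟩
  have h2 : (0 : ℝ) < Real.sqrt 2 := by positivity
  have h3 : (a : ℝ) = 0 := by
    simp only [Int.cast_zero, zero_mul, add_zero, mul_eq_zero] at h
    rcases h with h | h
    · exact h
    · exact absurd h h2.ne'
  exact_mod_cast h3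

end H40

open H40

/-- **C**: one of `πe, e^e, e^(π²)` is transcendental. -/
theorem dataC (hM : S_Main) (hC : S_ShC) : S_C := by
  by_contra hcon
  have h := not_some hcon
  have h2 := pie (h := h 2 (by simp))
  have h5 := ee (h := h 5 (by simp))
  have h8 := epi2 (h := h 8 (by simp))
  refine run hM hC (-1) I (-1) (Real.pi * ((Real.exp 1 : ℝ) : ℂ)) (Real.pi * I)
    ((Real.exp 1 : ℝ) : ℂ) (Real.pi * I) ((Real.pi : ℂ) ^ 2) Real.pi (-1) Real.pi (-I)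
    pi_ne ?_ ?_ ?_ ?_ ?_ alg_neg_one h2 alg_neg_one alg_I exp_pi_I_alg h5 exp_pi_I_alg h8
    (by simp) I_ne_zero (by simp) (mul_ne_zero pi_ne e_ne) ?_ (Or.inl ⟨?_, ?_⟩)
  · linear_combination (-(Real.pi : ℂ)) * I_sq
  · ring
  · ring
  · ring
  · linear_combination - I_sq
  · have h : ((Real.pi : ℂ) ^ 2).re = Real.pi ^ 2 := by
      rw [← Complex.ofReal_pow, Complex.ofReal_re]
    rw [h]
    exact pow_ne_zero _ Real.pi_ne_zero
  · simp
  · rw [Complex.ofReal_re]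
    exact (Real.exp_pos 1).ne'

/-- **E2**: one of `πe, π^π, e^e, π^√2` is transcendental. -/
theorem dataE2 (hM : S_Main) (hC : S_ShC) (hL : S_HL) : S_E2 := by
  by_contra hcon
  have h := not_some hcon
  have h2 := pie (h := h 2 (by simp))
  have h4 := pipi (h := h 4 (by simp))
  have h5 := ee (h := h 5 (by simp))
  have h7 := pis (h := h 7 (by simp))
  have s2 : ((Real.sqrt 2 : ℝ) : ℂ) * ((Real.sqrt 2 : ℝ) : ℂ) = 2 := by
    rw [← Complex.ofReal_mul, Real.mul_self_sqrt (by norm_num)]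
    norm_num
  have hi : ((Real.sqrt 2 : ℝ) : ℂ) * ((Real.sqrt 2 : ℝ) : ℂ)⁻¹ = 1 :=
    mul_inv_cancel₀ sqrt2_ne
  refine run hM hC (-((Real.sqrt 2 : ℝ) : ℂ)) (-1) I
    (Real.pi * ((Real.exp 1 : ℝ) : ℂ) * ((Real.sqrt 2 : ℝ) : ℂ)⁻¹) (Real.pi * I)
    ((Real.exp 1 : ℝ) : ℂ) ((Real.log Real.pi : ℂ) * ((Real.sqrt 2 : ℝ) : ℂ))
    ((Real.log Real.pi : ℂ) * Real.pi) Real.pi (-1)
    (Real.pi * ((Real.sqrt 2 : ℝ) : ℂ)⁻¹) (-1)
    pi_ne ?_ ?_ ?_ ?_ ?_ alg_I (h2.mul alg_sqrt2.inv) alg_sqrt2.neg alg_neg_one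
    exp_pi_I_alg h5 h7 h4
    (neg_ne_zero.2 sqrt2_ne) (by simp) I_ne_zero
    (mul_ne_zero (mul_ne_zero pi_ne e_ne) (inv_ne_zero sqrt2_ne)) ?_ (Or.inr ?_)
  · ring
  · ring
  · linear_combination ((Real.pi : ℂ) * (Real.log Real.pi : ℂ)) * hi
  · linear_combination (-(Real.pi : ℂ)) * hi
  · ring
  · have h : ((Real.log Real.pi : ℂ) * Real.pi).re = Real.log Real.pi * Real.pi := by
      rw [← Complex.ofReal_mul, Complex.ofReal_re]
    rw [h]
    exact mul_ne_zero logpi_pos.ne' Real.pi_ne_zero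
  · intro a b hab
    have e1 : ((Real.log Real.pi : ℂ) * Real.pi).re = Real.log Real.pi * Real.pi := by
      rw [← Complex.ofReal_mul, Complex.ofReal_re]
    have e2 : ((Real.log Real.pi : ℂ) * ((Real.sqrt 2 : ℝ) : ℂ)).re =
        Real.log Real.pi * Real.sqrt 2 := by
      rw [← Complex.ofReal_mul, Complex.ofReal_re]
    rw [e1, e2] at hab
    refine rel_sqrt2 (pi_trans hL) a b ?_
    have h3 : Real.log Real.pi * ((a : ℝ) * Real.sqrt 2 + b * Real.pi) = 0 := by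
      linear_combination hab
    exact (mul_eq_zero.1 h3).resolve_left logpi_pos.ne'

/-- **E1**: one of `πe, e^e, π^e, π^√2` is transcendental. -/
theorem dataE1 (hM : S_Main) (hC : S_ShC) (hL : S_HL) : S_E1 := by
  by_contra hcon
  have h := not_some hcon
  have h2 := pie (h := h 2 (by simp))
  have h5 := ee (h := h 5 (by simp))
  have h6 := pie' (h := h 6 (by simp))
  have h7 := pis (h := h 7 (by simp))
  have hi : ((Real.sqrt 2 : ℝ) : ℂ) * ((Real.sqrt 2 : ℝ) : ℂ)⁻¹ = 1 :=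
    mul_inv_cancel₀ sqrt2_ne
  refine run hM hC (-1) (-((Real.sqrt 2 : ℝ) : ℂ)⁻¹) ((Real.sqrt 2 : ℝ) : ℂ)
    (I * (Real.pi * ((Real.exp 1 : ℝ) : ℂ))) ((Real.exp 1 : ℝ) : ℂ)
    (Real.pi * I) ((Real.log Real.pi : ℂ) * ((Real.sqrt 2 : ℝ) : ℂ))
    ((Real.log Real.pi : ℂ) * ((Real.exp 1 : ℝ) : ℂ)) ((Real.exp 1 : ℝ) : ℂ) (-1)
    ((Real.exp 1 : ℝ) : ℂ) (-((Real.sqrt 2 : ℝ) : ℂ))
    e_ne ?_ ?_ ?_ ?_ ?_ alg_sqrt2 (alg_I.mul h2) alg_neg_one alg_sqrt2.inv.neg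
    h5 exp_pi_I_alg h7 h6
    (by simp) (neg_ne_zero.2 (inv_ne_zero sqrt2_ne)) sqrt2_ne
    (mul_ne_zero I_ne_zero (mul_ne_zero pi_ne e_ne)) ?_ (Or.inr ?_)
  · ring
  · ring
  · ring
  · ring
  · linear_combination hi
  · have h : ((Real.log Real.pi : ℂ) * ((Real.exp 1 : ℝ) : ℂ)).re =
        Real.log Real.pi * Real.exp 1 := by
      rw [← Complex.ofReal_mul, Complex.ofReal_re]
    rw [h]
    exact mul_ne_zero logpi_pos.ne' (Real.exp_pos 1).ne'
  · intro a b hab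
    have e1 : ((Real.log Real.pi : ℂ) * ((Real.exp 1 : ℝ) : ℂ)).re =
        Real.log Real.pi * Real.exp 1 := by
      rw [← Complex.ofReal_mul, Complex.ofReal_re]
    have e2 : ((Real.log Real.pi : ℂ) * ((Real.sqrt 2 : ℝ) : ℂ)).re =
        Real.log Real.pi * Real.sqrt 2 := by
      rw [← Complex.ofReal_mul, Complex.ofReal_re]
    rw [e1, e2] at hab
    refine rel_sqrt2 (e_trans hL) a b ?_
    have h3 : Real.log Real.pi * ((a : ℝ) * Real.sqrt 2 + b * Real.exp 1) = 0 := by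
      linear_combination hab
    exact (mul_eq_zero.1 h3).resolve_left logpi_pos.ne'

end Trs
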